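import Pool.Agent.MP_92f1cb_al.H14S.Slot
import Pool.Agent.MP_92f1cb_al.H14C.ModelEx
import Pool.Agent.MP_92f1cb_al.H14C.FinA

set_option autoImplicit false

namespace Pool.Agent.MP_92f1cb_al.H14S

open Pool.Agent.MP_92f1cb_al.H14 Pool.Agent.MP_92f1cb_al.H14C Module MvPolynomial

section Q

variable {R : Type} [CommRing R]

theorem trU_of {h : R} {I₁ I₂ : Ideal R} (H : ∀ f ∈ I₁, h * f ∈ I₂) {u : QU R} {f : R}
    (e : u I₁ = Ideal.Quotient.mk I₁ f) : trU h I₁ I₂ u = emb I₂ (h * f) := by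
  have H' : I₁ ≤ LinearMap.ker (emb I₂ ∘ₗ LinearMap.mulLeft R h) := fun g hg =>
    emb_eq_zero.2 (H g hg)
  rw [trU, dif_pos H', LinearMap.comp_apply, LinearMap.proj_apply, e]
  rfl

theorem one_le {I₁ I₂ : Ideal R} (H : I₁ ≤ I₂) : ∀ f ∈ I₁, 1 * f ∈ I₂ :=
  fun f hf => by rw [one_mul]; exact H hf

theorem tr_ex {I₁ I₂ : Ideal R} (H : I₁ ≤ I₂) (u : QU R) : ∃ f, trU 1 I₁ I₂ u = emb I₂ f := by
  obtain ⟨f, e⟩ := Ideal.Quotient.mk_surjective (u I₁)
  exact ⟨_, trU_of (one_le H) e.symm⟩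

theorem tr_self {I₁ I₂ : Ideal R} (H : I₁ ≤ I₂) (f : R) : trU 1 I₁ I₂ (emb I₁ f) = emb I₂ f := by
  rw [trU_emb (one_le H), one_mul]

theorem tr_zero {I₁ I₂ : Ideal R} (H : I₁ ≤ I₂) {u : QU R} (e : u I₁ = 0) :
    trU 1 I₁ I₂ u = 0 := by
  rw [trU_of (f := 0) (one_le H) (e.trans (map_zero _).symm), mul_zero, map_zero]

theorem tr_ne {I₁ I₂ K : Ideal R} (H : I₁ ≤ I₂) (h : K ≠ I₂) (u : QU R) :
    trU 1 I₁ I₂ u K = 0 := by
  obtain ⟨f, e⟩ := tr_ex H u
  rw [e, emb_ne h]

end Q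

variable {k A : Type} [Field k] [Ring A] [Algebra k A] (M : Model k A)

theorem cm_inj {I J : Ideal (R0 k)} (h : I ≠ J) : I.comap (eS k) ≠ J.comap (eS k) := fun e =>
  h (Ideal.ext fun f => by rw [← ModR.cm, e, ModR.cm])

/-- Apply linear maps to the entries. -/
noncomputable def En (F : Fin 3 → Fin 3 → End k (UU k)) : End k A where
  toFun a := M.inM (Matrix.of fun i j => F i j (M.prM a i j))
  map_add' a c := by
    rw [← map_add]
    congr 1
    exact Matrix.ext fun i j => by simp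
  map_smul' r a := by
    rw [RingHom.id_apply, ← map_smul]
    congr 1
    exact Matrix.ext fun i j => by simp

theorem En_apply (F : Fin 3 → Fin 3 → End k (UU k)) (a : A) :
    En M F a = M.inM (Matrix.of fun i j => F i j (M.prM a i j)) := rfl

/-- The constant family of entry maps. -/
noncomputable def tU (I₁ I₂ : Ideal (SS k)) : Fin 3 → Fin 3 → End k (UU k) :=
  fun _ _ => (trU 1 I₁ I₂).restrictScalars k

theorem tr_eq (I₁ I₂ : Ideal (SS k)) (a : A) : M.tr 1 I₁ I₂ a = En M (tU I₁ I₂) a := rfl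

theorem En_En {F G H : Fin 3 → Fin 3 → End k (UU k)} (h : ∀ i j u, F i j (G i j u) = H i j u)
    (a : A) : En M F (En M G a) = En M H a := by
  rw [En_apply, En_apply M G, M.prM_inM, En_apply]
  congr 1
  exact Matrix.ext fun i j => h i j _

theorem En_En0 {F G : Fin 3 → Fin 3 → End k (UU k)} (h : ∀ i j u, F i j (G i j u) = 0)
    (a : A) : En M F (En M G a) = 0 := by
  rw [En_apply, En_apply M G, M.prM_inM, ← map_zero M.inM]
  congr 1
  exact Matrix.ext fun i j => h i j _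

theorem σ_En (F : Fin 3 → Fin 3 → End k (UU k)) (a : A) : M.σ (En M F a) = 0 := M.σ_inM _

theorem prL_En (F : Fin 3 → Fin 3 → End k (UU k)) (a : A) : M.prL (En M F a) = 0 := M.prL_inM _

theorem En_σ (F : Fin 3 → Fin 3 → End k (UU k)) (a : A) : En M F (M.σ a) = 0 := by
  rw [En_apply, M.σ_apply, M.prM_inL, ← map_zero M.inM]
  congr 1
  exact Matrix.ext fun i j => map_zero (F i j)

theorem En_mul (F G : Fin 3 → Fin 3 → End k (UU k)) (a c : A) : En M F a * En M G c = 0 :=
  M.M_mul_M _ _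

theorem lam_dg (i : Fin 3) : lam k (ModelR.dg k i) = Matrix.single i i 1 :=
  Matrix.ext fun r s => by
    rw [lam_apply]
    by_cases h : i = r ∧ i = s
    · obtain ⟨rfl, rfl⟩ := h
      simp [ModelR.dg]
    · simp [ModelR.dg, Matrix.single_apply_of_ne _ _ _ _ _ h]

theorem rgt_dg (i : Fin 3) : rgt k (ModelR.dg k i) = Matrix.single i i 1 :=
  Matrix.ext fun r s => by
    rw [rgt_apply]
    by_cases h : i = r ∧ i = s
    · obtain ⟨rfl, rfl⟩ := h
      simp [ModelR.dg]
    · simp [ModelR.dg, Matrix.single_apply_of_ne _ _ _ _ _ h]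

/-- The idempotents. -/
noncomputable def ep (i : Fin 3) : A := M.inL (ModelR.dg k i)

theorem prM_ep_mul (i : Fin 3) (a : A) : M.prM (ep M i * a) = Matrix.single i i 1 * M.prM a := by
  rw [FinR.prM_mul, ep, M.prL_inL, M.prM_inL, zero_mul, add_zero, lam_dg]

theorem prM_mul_ep (i : Fin 3) (a : A) : M.prM (a * ep M i) = M.prM a * Matrix.single i i 1 := by
  rw [FinR.prM_mul, ep, M.prL_inL, M.prM_inL, mul_zero, zero_add, rgt_dg]

theorem ep_mul (i : Fin 3) (μ : Mat k) : ep M i * M.inM μ = M.inM (Matrix.single i i 1 * μ) := by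
  rw [ep, M.L_mul_M, lam_dg]

theorem mul_ep (i : Fin 3) (μ : Mat k) : M.inM μ * ep M i = M.inM (μ * Matrix.single i i 1) := by
  rw [ep, M.M_mul_L, rgt_dg]

theorem En_ep (F : Fin 3 → Fin 3 → End k (UU k)) (i : Fin 3) (a : A) :
    En M F (ep M i * a) = ep M i * En M F a ∧ En M F (a * ep M i) = En M F a * ep M i := by
  rw [En_apply, En_apply, En_apply, ep_mul, mul_ep, prM_ep_mul, prM_mul_ep]
  refine ⟨congrArg _ (Matrix.ext fun r s => ?_), congrArg _ (Matrix.ext fun r s => ?_)⟩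
  · by_cases h : r = i
    · subst h
      simp
    · simp [Matrix.single_mul_apply_of_ne _ _ _ _ _ h]
  · by_cases h : s = i
    · subst h
      simp
    · simp [Matrix.mul_single_apply_of_ne _ _ _ _ _ h]

open ModelR in
theorem tri_ep : Tri M.σ (ep M) := by
  have h0 : CompleteOrthogonalIdempotents (dg k) :=
    ⟨⟨fun i => Subtype.ext (by
        have := Matrix.single_mul_single_same (1 : KX k) i i i 1
        rwa [one_mul] at this),
      fun i j h => Subtype.ext (Matrix.single_mul_single_of_ne (1 : KX k) i i j h 1)⟩,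
      Subtype.ext (by
        rw [AddSubmonoidClass.coe_finsetSum]
        exact Matrix.sum_single_one)⟩
  refine ⟨h0.map M.inL.toRingHom, fun i h => ?_, fun i => M.σ_inL _,
    fun a ha i j h => ?_, fun a ha i => ?_⟩
  · have h1 := congrArg (fun a => (M.prL a).1 i i) h
    simp [ep, M.prL_inL, dg] at h1
  · rw [M.eq_inL ha, ep, ep, ← map_mul, ← map_mul, ← map_zero M.inL]
    congr 1
    exact Subtype.ext (by rw [dg_mul, ((M.prL a).2 i j).2 h, Matrix.single_zero]; rfl)
  · have h1 := ((M.prL a).2 i i).1 le_rfl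
    rw [Nat.sub_self, ← totalDegree_zero_iff_isHomogeneous, totalDegree_eq_zero_iff_eq_C] at h1
    refine ⟨coeff 0 ((M.prL a).1 i i), ?_⟩
    conv_lhs => rw [M.eq_inL ha]
    rw [ep, ← map_mul, ← map_mul, ← map_smul]
    congr 1
    refine Subtype.ext ?_
    rw [dg_mul, h1, coeff_zero_C]
    exact (by rw [Matrix.smul_single, smul_eq_C_mul, mul_one] :
      coeff 0 ((M.prL a).1 i i) • Matrix.single i i (1 : KX k) = _).symm

/-- Bimodule maps of the kernel extend to derivations. -/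
theorem leib (I₁ I₂ : Ideal (SS k)) (a c : A) :
    M.tr 1 I₁ I₂ (a * c) = M.tr 1 I₁ I₂ a * c + a * M.tr 1 I₁ I₂ c := by
  have e0 : ∀ x, M.tr 1 I₁ I₂ (M.σ x) = 0 := fun x => En_σ M (tU I₁ I₂) x
  have e1 : ∀ x, M.tr 1 I₁ I₂ (x - M.σ x) = M.tr 1 I₁ I₂ x := fun x => by
    rw [map_sub, e0, sub_zero]
  have e2 : a * c = M.σ (a * c) + (a - M.σ a) * c + a * (c - M.σ c) := by
    have := M.split.sq _ _ (M.split.sub a) (M.split.sub c)
    rw [map_mul]
    simp only [sub_mul, mul_sub] at this ⊢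
    linear_combination (norm := noncomm_ring) -this
  have b := M.bmap_tr 1 I₁ I₂
  rw [e2, map_add, map_add, e0, zero_add, ((b _ (M.split.sub a)).2 c).2,
    ((b _ (M.split.sub c)).2 a).1, e1, e1]

/-- The projection that forgets one component. -/
noncomputable def sg (K : Ideal (SS k)) : A →ₐ[k] A :=
  AlgHom.ofLinearMap (1 - M.tr 1 K K)
    (by
      have := En_σ M (tU K K) 1
      rw [map_one] at this
      rw [LinearMap.sub_apply, tr_eq, this, sub_zero]
      rfl)
    fun a c => by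
      have : M.tr 1 K K a * M.tr 1 K K c = 0 := En_mul M (tU K K) (tU K K) a c
      simp only [LinearMap.sub_apply, End.one_apply, leib, sub_mul, mul_sub, this]
      abel

theorem sg_apply (K : Ideal (SS k)) (a : A) : sg M K a = a - En M (tU K K) a := rfl

theorem mem_none {K : Ideal (R0 k)} {a : A} :
    a ∈ M.YR K none ↔ En M (tU (K.comap (eS k)) (K.comap (eS k))) a = a := by
  constructor
  · rintro ⟨f, -, rfl⟩
    rw [En_apply, M.prM_inM]
    congr 1
    exact Matrix.ext fun i j => tr_self le_rfl _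
  · intro h
    choose f hf using fun i j => tr_ex (le_refl (K.comap (eS k))) (M.prM a i j)
    have e : a = M.inM ((Matrix.of f).map (emb (K.comap (eS k)))) :=
      h.symm.trans (congrArg _ (Matrix.ext hf))
    rw [e]
    refine ModR.mem M fun i j => ⟨C (eS k (f i j)), ⟨_, trivial, rfl⟩, ?_⟩
    rw [Ideal.mem_comap, map_sub, eS_C, Matrix.of_apply, sub_self]
    exact zero_mem _

/-- Entrywise projections onto a pattern in one component. -/
theorem exists_pi (K : Ideal (SS k)) (D : Fin 3 → Fin 3 → Submodule k (SS k)) :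
    ∃ π : Fin 3 → Fin 3 → End k (UU k), (∀ i j u, ∃ f ∈ D i j, π i j u = emb K f) ∧
      (∀ i j, ∀ f ∈ D i j, π i j (emb K f) = emb K f) ∧ ∀ i j u, u K = 0 → π i j u = 0 := by
  choose g hg using fun i j => LinearMap.exists_leftInverse_of_injective
    ((D i j).map ((emb K).restrictScalars k)).subtype (Submodule.ker_subtype _)
  refine ⟨fun i j => Submodule.subtype _ ∘ₗ g i j ∘ₗ tU K K i j, fun i j u => ?_,
    fun i j f hf => ?_, fun i j u h => ?_⟩
  · obtain ⟨f, hf, e⟩ := (g i j (tU K K i j u)).2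
    exact ⟨f, hf, e.symm⟩
  · have e : tU K K i j (emb K f) = emb K f := tr_self le_rfl f
    rw [LinearMap.comp_apply, LinearMap.comp_apply, e]
    exact congrArg Subtype.val (LinearMap.congr_fun (hg i j) ⟨emb K f, f, hf, rfl⟩)
  · have e : tU K K i j u = 0 := tr_zero le_rfl h
    rw [LinearMap.comp_apply, LinearMap.comp_apply, e, map_zero, map_zero]

theorem mem_pi {K : Ideal (SS k)} {D : Fin 3 → Fin 3 → Submodule k (SS k)}
    {π : Fin 3 → Fin 3 → End k (UU k)} (h1 : ∀ i j u, ∃ f ∈ D i j, π i j u = emb K f)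
    (h2 : ∀ i j, ∀ f ∈ D i j, π i j (emb K f) = emb K f) {a : A} :
    a ∈ M.YY K D ↔ En M π a = a := by
  constructor
  · rintro ⟨f, hf, rfl⟩
    rw [En_apply, M.prM_inM]
    congr 1
    exact Matrix.ext fun i j => h2 i j _ (hf i j)
  · intro h
    choose f hf e using fun i j => h1 i j (M.prM a i j)
    exact ⟨Matrix.of f, hf, h.symm.trans (congrArg _ (Matrix.ext e))⟩

theorem bim_sup {σ : A →ₐ[k] A} {Y Y' : Submodule k A} (h : Bim σ Y) (h' : Bim σ Y') :
    Bim σ (Y ⊔ Y') := fun y hy => by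
  obtain ⟨u, hu, w, hw, rfl⟩ := Submodule.mem_sup.1 hy
  refine ⟨by rw [map_add, (h u hu).1, (h' w hw).1, add_zero], fun a => ⟨?_, ?_⟩⟩
  · rw [mul_add]
    exact Submodule.add_mem_sup ((h u hu).2 a).1 ((h' w hw).2 a).1
  · rw [add_mul]
    exact Submodule.add_mem_sup ((h u hu).2 a).2 ((h' w hw).2 a).2

/-- The matrix with a multiple of a power of the last variable in the first column. -/
noncomputable def cl (c : Fin 3 → k) : Lalg k :=
  ⟨Matrix.of fun i j => if j = 0 then C (c i) * X 2 ^ (i : ℕ) else 0, fun i j => by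
    rw [Matrix.of_apply]
    refine ⟨fun _ => ?_, fun h => if_neg (Fin.pos_iff_ne_zero.1 (lt_of_le_of_lt i.zero_le h))⟩
    split_ifs with h
    · subst h
      simpa using (isHomogeneous_C _ (c i)).mul ((isHomogeneous_X k (2 : Fin 3)).pow i)
    · exact isHomogeneous_zero _ _ _⟩

/-- Evaluation of the triangular part at a point. -/
noncomputable def ph (x : Fin 3 → k) : A →ₐ[k] Matrix (Fin 3) (Fin 3) k :=
  (aeval x : KX k →ₐ[k] k).mapMatrix.comp ((Lalg k).val.comp M.prL)

/-- Evaluation of one component at a pair of points. -/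
noncomputable def rh (I : Ideal (R0 k)) (x y : Fin 3 → k)
    (h : ∀ g ∈ I, aeval (Sum.elim x y) g = 0) : A →ₗ[k] Matrix (Fin 3) (Fin 3) k :=
  (FinR.ev I _ h).toLinearMap.mapMatrix ∘ₗ M.prM

theorem rh_mul (I : Ideal (R0 k)) (x y : Fin 3 → k) (h : ∀ g ∈ I, aeval (Sum.elim x y) g = 0)
    (a c : A) : rh M I x y h (a * c) = ph M x a * rh M I x y h c + rh M I x y h a * ph M y c := by
  have e1 : ∀ l : Lalg k, (FinR.ev I _ h).mapMatrix (lam k l) =
      (aeval x : KX k →ₐ[k] k).mapMatrix l.1 := fun l => Matrix.ext fun i j => FinR.ev_z _ _ _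
  have e2 : ∀ l : Lalg k, (FinR.ev I _ h).mapMatrix (rgt k l) =
      (aeval y : KX k →ₐ[k] k).mapMatrix l.1 := fun l => Matrix.ext fun i j => FinR.ev_y _ _ _
  change (FinR.ev I _ h).mapMatrix (M.prM (a * c)) = _
  rw [FinR.prM_mul, map_add, map_mul, map_mul, e1, e2]
  rfl

theorem rh_σ (I : Ideal (R0 k)) (x y : Fin 3 → k) (h : ∀ g ∈ I, aeval (Sum.elim x y) g = 0)
    (a : A) : rh M I x y h (M.σ a) = 0 := by
  rw [rh, LinearMap.comp_apply, M.σ_apply, M.prM_inL, map_zero]

theorem rh_sg (I : Ideal (R0 k)) (x y : Fin 3 → k) (h : ∀ g ∈ I, aeval (Sum.elim x y) g = 0)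
    {K : Ideal (SS k)} (hK : I.comap (eS k) ≠ K) (a : A) :
    rh M I x y h (sg M K a) = rh M I x y h a := by
  rw [sg_apply, map_sub, sub_eq_self, En_apply, rh, LinearMap.comp_apply, M.prM_inM]
  refine Matrix.ext fun i j => ?_
  change Ideal.Quotient.liftₐ (I.comap (eS k)) ((aeval (Sum.elim x y)).comp (eS k))
    (fun _ hg => h _ hg) (trU 1 K K (M.prM a i j) (I.comap (eS k))) = 0
  rw [tr_ne le_rfl hK, map_zero]

theorem rh_single (I : Ideal (R0 k)) (x y : Fin 3 → k)
    (h : ∀ g ∈ I, aeval (Sum.elim x y) g = 0) (g : R0 k) (hg : aeval (Sum.elim x y) g = 1) :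
    rh M I x y h (M.inM ((Matrix.single 0 0 (C g)).map (emb (I.comap (eS k))))) =
      Matrix.single 0 0 1 := by
  rw [rh, LinearMap.comp_apply, M.prM_inM]
  refine Matrix.ext fun i j => ?_
  change FinR.ev I _ h (emb _ (Matrix.single 0 0 (C g : SS k) i j)) = _
  rw [FinR.ev_emb]
  by_cases e : 0 = i ∧ 0 = j
  · obtain ⟨rfl, rfl⟩ := e
    rw [Matrix.single_apply_same, Matrix.single_apply_same, eS_C, hg]
  · rw [Matrix.single_apply_of_ne _ _ _ _ _ e, Matrix.single_apply_of_ne _ _ _ _ _ e, map_zero,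
      map_zero]

theorem single_mem (I : Ideal (R0 k)) (d : Option (ℕ × ℕ)) (j : Fin 3) {g : R0 k}
    (hg : g ∈ pat k d 0 j) :
    M.inM ((Matrix.single 0 j (C g)).map (emb (I.comap (eS k)))) ∈ M.YR I d :=
  ⟨_, fun r s => by
    by_cases h : 0 = r ∧ j = s
    · obtain ⟨rfl, rfl⟩ := h
      exact ⟨_, hg, (Matrix.single_apply_same _ _ _).symm⟩
    · rw [Matrix.single_apply_of_ne _ _ _ _ _ h]
      exact zero_mem _, rfl⟩

end Pool.Agent.MP_92f1cb_al.H14S
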