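import Pool.Agent.MP_92f1cb_al.H14S.Slot
import Pool.Agent.MP_92f1cb_al.H14C.Ell
import Pool.Agent.MP_92f1cb_al.H14C.Orb
import Pool.Agent.MP_92f1cb_al.H14C.NonTors
import Pool.Agent.MP_92f1cb_al.H14C.FinA

set_option autoImplicit false

namespace Pool.Agent.MP_92f1cb_al.H14S

open Pool.Agent.MP_92f1cb_al.H14 Pool.Agent.MP_92f1cb_al.H14C Module MvPolynomial

section Chain

open WeierstrassCurve WeierstrassCurve.Projective EllR

/-- A chain of affine points whose bihomogeneous ideal has no cycle. -/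
theorem chain (k : Type) [Field k] (hk : NonRoot k) : ∃ p : ℕ → Fin 3 → k, (∀ n, p n 2 = 1) ∧
    NoCycle (II fun n => Sum.elim (p n) (p (n + 1))) := by
  classical
  obtain ⟨W, _, P₀, hP₀⟩ := nonTorsion orb k hk
  obtain ⟨P, hP⟩ : ∃ P : (W.toProjective.baseChange k).toAffine.Point,
      ∀ n : ℕ, 0 < n → n • P ≠ 0 := ⟨P₀, hP₀⟩
  let v : ℕ → Fin 3 ⊕ Fin 3 → k := fun n =>
    Sum.elim (rep ((n + 1) • P)) (rep ((n + 1 + 1) • P))
  refine ⟨fun n => rep ((n + 1) • P), fun n => ?_, ?_⟩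
  · have := hP (n + 1) n.succ_pos
    change rep ((n + 1) • P) 2 = 1
    revert this
    generalize (n + 1) • P = Q
    intro h
    cases Q with
    | zero => exact absurd rfl h
    | some x y h => rfl
  change NoCycle (II v)
  intro K _ _ m x y hx hy hI hc
  let β := Affine.Point.baseChange (W' := W.toProjective.toAffine) k K
  have hβ : ∀ n : ℕ, 0 < n → n • β P ≠ 0 := fun n hn e => hP n hn
    (Affine.Point.map_injective (Algebra.ofId k K) (by
      change β _ = β _
      rw [map_nsmul, e, map_zero]))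
  have hcomp : ∀ {B : Type} [CommRing B] [Algebra k B] (f : R0 k →ₐ[k] B) (u : Fin 3 → k),
      (f : R0 k →+* B) ∘ algebraMap k (R0 k) ∘ u = algebraMap k B ∘ u :=
    fun f u => funext fun i => f.commutes (u i)
  have hG : ∀ i, G (W.toProjective.baseChange K) (rep (β P)) (rep (β (-P))) (rep (β (P + P)))
      (x i) (y i) := fun i => by
    have h := G.transfer (W := W.toProjective.baseChange (R0 k))
      (a := algebraMap k _ ∘ rep P) (b := algebraMap k _ ∘ rep (-P))
      (c := algebraMap k _ ∘ rep (P + P)) (x := xv k) (y := yv k)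
      (fun n => (psi (v n) : R0 k →+* AddMonoidAlgebra k (ℕ × ℕ)))
      ((aeval (Sum.elim (x i) (y i)) : R0 k →ₐ[k] K) : R0 k →+* K)
      (fun g hg => hI i g (mem_II.2 hg)) fun n => by
        have h1 := ((G.of_add (rep_rep P) (rep_rep (-P)) (rep_rep (P + P))
          (rep_rep ((n + 1) • P)) (succ_nsmul P (n + 1) ▸ rep_rep ((n + 1 + 1) • P))).map
            (Algebra.ofId k (AddMonoidAlgebra k (ℕ × ℕ)) :
              k →+* AddMonoidAlgebra k (ℕ × ℕ))).smul
          (AddMonoidAlgebra.single (1, 0) 1) (AddMonoidAlgebra.single (0, 1) 1)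
        rw [Projective.map_baseChange] at h1
        rw [Projective.map_baseChange, hcomp, hcomp, hcomp]
        convert h1 using 1
        · rfl
        · rfl
        · rfl
        · funext s
          simp [psi, xv, bw, v, AddMonoidAlgebra.single_mul_single]
        · funext s
          simp [psi, yv, bw, v, AddMonoidAlgebra.single_mul_single, succ_nsmul]
    rw [Projective.map_baseChange, hcomp, hcomp, hcomp, rep_map, rep_map, rep_map] at h
    convert h using 1
    · funext s; simp [xv]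
    · funext s; simp [yv]
  have : (W.toProjective.baseChange K).IsElliptic :=
    inferInstanceAs (W.map (algebraMap k K)).IsElliptic
  let T := Point.toAffine (W.toProjective.baseChange K)
  have hT : ∀ i, T (x (i + 1)) = T (x i) + β P := fun i => by
    obtain ⟨c, e⟩ := hc i
    have h0 : c ≠ 0 := fun h0 => hy i (by rw [e, h0, zero_smul])
    have h := (hG i).eq_add hβ (rep_rep _) (map_neg β P ▸ rep_rep _) (map_add β P P ▸ rep_rep _)
      (rep_of_eq (hG i).1 (hx i)) (rep_of_eq (hG i).2.1 (hy i))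
    rw [e, Point.toAffine_smul _ h0.isUnit] at h
    exact h
  have hs : ∑ i, T (x (i + 1)) = ∑ i, T (x i) :=
    Equiv.sum_comp (Equiv.addRight (1 : Fin (m + 1))) fun i => T (x i)
  simp only [hT, Finset.sum_add_distrib, Finset.sum_const, Finset.card_univ, Fintype.card_fin,
    add_eq_left] at hs
  exact hβ _ m.succ_pos hs

end Chain

variable {k : Type} [Field k]

/-- Finitely many of a sequence of functionals that span and are independent. -/
theorem pick {W : Type} [AddCommGroup W] [Module k W] [FiniteDimensional k W]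
    (v : ℕ → Dual k W) : ∃ (κ : Type) (a : κ → ℕ) (R : ℕ), (∀ r, a r < R) ∧
      (∀ w, (∀ r, v (a r) w = 0) → ∀ n, v n w = 0) ∧ ∀ c : κ → k, ∃ w, ∀ r, v (a r) w = c r := by
  obtain ⟨κ, a, -, h1, h2⟩ := exists_linearIndependent' k v
  have : Finite κ := h2.finite
  have := Fintype.ofFinite κ
  refine ⟨κ, a, Finset.univ.sup a + 1,
    fun r => Nat.lt_succ_of_le (Finset.le_sup (Finset.mem_univ r)), fun w hw n => ?_, fun c => ?_⟩
  · have e : Submodule.span k (Set.range (v ∘ a)) ≤ LinearMap.ker (Dual.eval k W w) :=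
      Submodule.span_le.2 (by rintro _ ⟨r, rfl⟩; exact hw r)
    rw [h1] at e
    exact e (Submodule.subset_span ⟨n, rfl⟩)
  · let co : Dual k W →ₗ[k] (W → k) :=
      { toFun := fun f => f, map_add' := fun _ _ => rfl, map_smul' := fun _ _ => rfl }
    have h3 := h2.map' co (LinearMap.ker_eq_bot.2 DFunLike.coe_injective)
    have h4 := span_flip_eq_top_iff_linearIndependent.2 h3
    have e : Submodule.span k (Set.range (flip (co ∘ v ∘ a))) ≤
        LinearMap.range (LinearMap.pi fun r => v (a r)) :=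
      Submodule.span_le.2 (by rintro _ ⟨w, rfl⟩; exact ⟨w, rfl⟩)
    rw [h4] at e
    obtain ⟨w, hw⟩ := e (Submodule.mem_top (x := c))
    exact ⟨w, fun r => congrFun hw r⟩

/-- Lifts of a basis of a quotient of finite dimension. -/
theorem lifts {X : Type} [AddCommGroup X] [Module k X] (W H J : Submodule k X)
    [FiniteDimensional k W] (h : ∀ g, ∃ w ∈ W, g - w ∈ J) : ∃ (n : ℕ) (δ : Fin n → X),
      (∀ g, ∃ u ∈ H, ∃ c : Fin n → k, g - u - ∑ z, c z • δ z ∈ J) ∧
      ∀ u ∈ H, ∀ c : Fin n → k, u - ∑ z, c z • δ z ∈ J → ∀ z, c z = 0 := by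
  have : FiniteDimensional k (X ⧸ (H ⊔ J)) :=
    Module.Finite.of_surjective ((H ⊔ J).mkQ ∘ₗ W.subtype) fun x => by
      obtain ⟨g, rfl⟩ := (H ⊔ J).mkQ_surjective x
      obtain ⟨w, hw, e⟩ := h g
      exact ⟨⟨w, hw⟩, ((Submodule.Quotient.eq _).2 (Submodule.mem_sup_right e)).symm⟩
  let b := Module.finBasis k (X ⧸ (H ⊔ J))
  choose δ hδ using fun z => (H ⊔ J).mkQ_surjective (b z)
  have e : ∀ c : Fin _ → k, (H ⊔ J).mkQ (∑ z, c z • δ z) = ∑ z, c z • b z := fun c => by
    simp only [map_sum, map_smul, hδ]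
  refine ⟨_, δ, fun g => ?_, fun u hu c hc => ?_⟩
  · have h1 : g - ∑ z, b.repr ((H ⊔ J).mkQ g) z • δ z ∈ H ⊔ J :=
      (Submodule.Quotient.eq _).1 ((e _).trans (b.sum_repr _)).symm
    obtain ⟨u, hu, j, hj, h2⟩ := Submodule.mem_sup.1 h1
    refine ⟨u, hu, b.repr ((H ⊔ J).mkQ g), ?_⟩
    rw [sub_right_comm, ← h2, add_sub_cancel_left]
    exact hj
  · refine Fintype.linearIndependent_iff.1 b.linearIndependent c ?_
    rw [← e]
    refine (Submodule.Quotient.mk_eq_zero _).2 ?_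
    have := (H ⊔ J).sub_mem (Submodule.mem_sup_left hu) (Submodule.mem_sup_right hc)
    rwa [sub_sub_cancel] at this

/-- Forms of bidegree `(a, a + 2 - j)`. -/
noncomputable abbrev HS (k : Type) [Field k] (a : ℕ) (j : Fin 3) : Submodule k (R0 k) :=
  weightedHomogeneousSubmodule k bw (a, a + (2 - j))

/-- The data on points. -/
structure Pts (k : Type) [Field k] where
  I : Ideal (R0 k)
  J : Ideal (R0 k)
  a : ℕ
  R : ℕ
  p : ℕ → Fin 3 → k
  Z : Fin 2 → ℕ
  δ : ∀ j : Fin 2, Fin (Z j) → R0 k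
  noc : NoCycle I
  gen : ∀ (A B : Type) [Ring A] [Algebra k A] (β : Basis B k A) (M : Model k A),
    Gen β M I (M.YR I (some (a, a)))
  p2 : ∀ n, p n 2 = 1
  pI : ∀ n, ∀ g ∈ I, aeval (Sum.elim (p n) (p (n + 1))) g = 0
  nx : xv k 2 - 1 ∉ I
  IJ : I ≤ J
  Jx : xv k 2 - 1 ∈ J
  Jy : yv k 2 - 1 ∈ J
  early : ∀ g, (∀ r < R, aeval (Sum.elim (p r) (p (r + 1))) g = 0) → g ∈ J
  inj : ∀ j, ∀ f ∈ HS k a j, f ∈ J → f ∈ I
  surj : ∀ g, ∃ h ∈ HS k a 0, g - h ∈ J
  span : ∀ (j : Fin 2) g, ∃ u ∈ HS k a j.succ, ∃ c : Fin (Z j) → k,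
    g - u - ∑ z, c z • δ j z ∈ J
  indep : ∀ j : Fin 2, ∀ u ∈ HS k a j.succ, ∀ c : Fin (Z j) → k,
    u - ∑ z, c z • δ j z ∈ J → ∀ z, c z = 0

open EllR in
theorem pts (k : Type) [Field k] (hk : NonRoot k) : Nonempty (Pts k) := by
  classical
  obtain ⟨p, p2, noc⟩ := chain k hk
  set v : ℕ → Fin 3 ⊕ Fin 3 → k := fun n => Sum.elim (p n) (p (n + 1)) with hv
  obtain ⟨a, ha⟩ := exists_gen (II v) (bihom_II v)
  have : FiniteDimensional k (HS k a 0) := FinR.fin_bw _
  obtain ⟨κ, e, R, hR, h1, h2⟩ :=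
    pick fun n => (aeval (v n) : R0 k →ₐ[k] k).toLinearMap ∘ₗ (HS k a 0).subtype
  let J : Ideal (R0 k) := ⨅ r, RingHom.ker (aeval (v (e r)) : R0 k →ₐ[k] k)
  have mJ : ∀ g, g ∈ J ↔ ∀ r, aeval (v (e r)) g = 0 := fun g => Ideal.mem_iInf
  have surj : ∀ g, ∃ h ∈ HS k a 0, g - h ∈ J := fun g => by
    obtain ⟨w, hw⟩ := h2 fun r => aeval (v (e r)) g
    exact ⟨w.1, w.2, (mJ _).2 fun r => by rw [map_sub, sub_eq_zero]; exact (hw r).symm⟩
  choose Z δ s1 s2 using fun j : Fin 2 =>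
    lifts (HS k a 0) (HS k a j.succ) (J.restrictScalars k) surj
  have pI : ∀ n, ∀ g ∈ II v, aeval (v n) g = 0 := fun n g hg => aeval_of_psi (mem_II.1 hg n)
  refine ⟨⟨II v, J, a, R, p, Z, δ, noc, ha a le_rfl, p2, pI, fun h => ?_,
    fun g hg => (mJ g).2 fun r => pI _ g hg, (mJ _).2 fun r => by simp [hv, xv, p2],
    (mJ _).2 fun r => by simp [hv, yv, p2], fun g hg => (mJ g).2 fun r => hg _ (hR r),
    fun j f hf hJ => ?_, surj, s1, s2⟩⟩
  · have h3 := psi_eq_zero.1 (mem_II.1 h 0) (1, 0)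
    rw [map_sub, weightedHomogeneousComponent_of_mem (DevR.hom_x 2), if_pos rfl,
      weightedHomogeneousComponent_of_mem (isWeightedHomogeneous_one k bw), if_neg (by simp),
      sub_zero] at h3
    simp [hv, xv, p2] at h3
  · have m1 : f * (xv k 2 ^ 0 * yv k 2 ^ (j : ℕ)) ∈ HS k a 0 := by
      have := IsWeightedHomogeneous.mul hf (FinR.mono_mem 0 j 2 2)
      have e1 : ((a, a + (2 - j)) + (0, (j : ℕ)) : ℕ × ℕ) = (a, a + (2 - (0 : Fin 3))) :=
        Prod.ext rfl (by have := j.2; simp; omega)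
      rwa [e1] at this
    have h3 := h1 ⟨_, m1⟩ ((mJ _).1 (J.mul_mem_right _ hJ))
    refine mem_II.2 fun n => psi_eq_zero.2 fun d => ?_
    rw [weightedHomogeneousComponent_of_mem hf]
    split_ifs
    · simpa [hv, yv, p2] using h3 n
    · exact map_zero _

end Pool.Agent.MP_92f1cb_al.H14S
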