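import Pool.Agent.MP_92f1cb_al.H14C.Asm
import Pool.Agent.MP_92f1cb_al.H14C.Cyc2
import Pool.Agent.MP_92f1cb_al.H14C.Comm
import Pool.Agent.MP_92f1cb_al.H14C.Dev
import Pool.Agent.MP_92f1cb_al.H14C.Pat
import Pool.Agent.MP_92f1cb_al.H14C.Mod
import Pool.Agent.MP_92f1cb_al.H14C.JunC
import Pool.Agent.MP_92f1cb_al.H14C.Rot
import Pool.Agent.MP_92f1cb_al.H14C.JunA
import Pool.Agent.MP_92f1cb_al.H14C.FamR
import Pool.Agent.MP_92f1cb_al.H14C.Jun

set_option autoImplicit false

namespace Pool.Agent.MP_92f1cb_al.H14S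

open Pool.Agent.MP_92f1cb_al.H14 Pool.Agent.MP_92f1cb_al.H14C Module MvPolynomial

variable {k A B : Type} [Field k] [Ring A] [Algebra k A]

/-- The ideal lies in an affine chart on both sides. -/
def AffI (J : Ideal (R0 k)) : Prop := ∃ s t : Fin 3, xv k s - 1 ∈ J ∧ yv k t - 1 ∈ J

theorem sjun : SJun := jun mod patS_ses (junC mod) junA

theorem scyc : SCyc := cyc mod comm rot sjun

open CycR in
/-- One ideal per slot: a word complex that is not exact gives a chain of points. -/
theorem cycG (β : Basis B k A) (M : Model k A) (Js : List (Ideal (R0 k)))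
    (hJs : ∀ J ∈ Js, AffI J) (hn : ¬ Ex (bH β) (SW β M.σ (Js.map fun J => M.YR J none))) :
    ∃ (K : Type) (_ : Field K) (_ : Algebra k K) (x y : ℕ → Fin 3 → K),
      (∀ i (h : i < Js.length), x i ≠ 0 ∧ y i ≠ 0 ∧
        ∀ g ∈ Js[i], aeval (Sum.elim (x i) (y i)) g = 0) ∧
      ∀ i, ∃ c : K, y i = c • x (i + 1) := by
  have hM : SMod := mod
  set Ys := Js.map fun J => M.YR J none with hYs
  rcases Nat.eq_zero_or_eq_succ_pred Js.length with hm' | hm'
  · refine absurd ?_ hn
    rw [hYs, List.length_eq_zero_iff.1 hm']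
    exact ex_bot
  · generalize Js.length.pred = m at hm'
    have hm : Ys.length = m + 1 := by rw [hYs, List.length_map, hm']
    let J : Fin (m + 1) → Ideal (R0 k) := fun i => Js[i.val]'(i.2.trans_eq hm'.symm)
    choose s t h2 h3 using fun i : Fin (m + 1) => hJs (J i) (List.getElem_mem _)
    have h4 : ∀ i : Fin (m + 1), Ys[i.val]'(i.2.trans_eq hm.symm) = M.YR (J i) none :=
      fun i => List.getElem_map _
    have hY : ∀ Z ∈ Ys, ∃ J', Z = M.YR J' none := fun Z hZ => by
      obtain ⟨J', -, e⟩ := List.mem_map.1 hZ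
      exact ⟨J', e.symm⟩
    have hb : ∀ Z ∈ Ys, Bim M.σ Z := fun Z hZ => by
      obtain ⟨J', rfl⟩ := hY Z hZ
      exact (hM k A M).2.1 _ _
    have h0 : ∀ Z ∈ Ys, ∀ y ∈ Z, M.σ y = 0 := fun Z hZ y hy => (hb Z hZ y hy).1
    have km : ∀ r, KMap M.σ (M.mulS r) := fun r => (M.bmap_mulS r).kmap
    have kill : ∀ (i : Fin (m + 1)) (φ : End k A), (∀ y ∈ M.YR (J i) none, φ y = 0) →
        ∀ x ∈ SW β M.σ Ys, Sl β M.σ (m + 1) i φ x = 0 := fun i φ hφ x hx =>
      Op_kill β h0 (i := i) (by simpa using i.2) (i.2.trans_eq hm.symm)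
        (fun y hy => by rw [List.getElem_set_self]; exact hφ y (h4 i ▸ hy)) (SW_le_CW _ hx)
    obtain ⟨K, _, _, χ, c1, c2⟩ := comm k (WW k B) (R0 k) (Fin (m + 1)) (bH β) (SW β M.σ Ys)
      (psi β M (m + 1))
      (fun i r r' => by
        rw [psi_apply, psi_apply, psi_apply, Sl_mul_Sl M.split _ _ _ _ (km _), zip_same, map_mul,
          M.mulS_mul, Sl])
      (fun i j r r' => by
        rw [psi_apply, psi_apply, Sl_mul_Sl M.split _ _ _ _ (km _),
          Sl_mul_Sl M.split _ _ _ _ (km _),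
          zip_comm _ _ _ (by rw [← M.mulS_mul, ← M.mulS_mul, mul_comm])])
      (fun i r => by
        have := comm_Sl (β := β) M.split hb (M.bmap_mulS (C r)) i fun _ => by
          rw [h4 i]
          exact mulS_mem M r _
        rwa [hm] at this)
      (fun i x hx => by
        have e := LinearMap.congr_fun (Op_set_add β M.σ (List.replicate (m + 1) 1) (i := i)
          (by simpa using i.2) (M.mulS 1) (1 - M.mulS 1)) x
        have e0 := kill i (1 - M.mulS 1) (fun y hy => by
          rw [LinearMap.sub_apply, M.mulS_one ((hM k A M).2.1 _ _ y hy).1]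
          exact sub_self y) x hx
        have e1 := Op_one h0 (SW_le_CW _ hx)
        rw [hm] at e1
        rw [add_sub_cancel, List.set_replicate_self, e1, LinearMap.add_apply] at e
        rw [psi_apply, map_one]
        exact (e.trans ((congrArg _ e0).trans (add_zero _))).symm) hn
    have z : ∀ i, ∀ g ∈ J i, χ i g = 0 := fun i g hg => c1 i g (kill i _ (mulS_kill M hg))
    have one : ∀ i g, g - 1 ∈ J i → χ i g = 1 := fun i g hg => by
      have := z i _ hg
      rwa [map_sub, map_one, sub_eq_zero] at this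
    have step : ∀ i : Fin (m + 1), ∀ l, χ i (yv k l) = χ i (yv k (s (i + 1))) *
        χ (i + 1) (xv k l) := fun i l => by
      by_cases hl : l = s (i + 1)
      · rw [hl, one _ _ (h2 (i + 1)), mul_one]
      · rw [mul_comm]
        exact c2 i (i + 1) _ _ _ 4 (junction β M hM rot sjun hm hY i (h4 (i + 1)) hl
          (h2 (i + 1)))
    refine ⟨K, inferInstance, inferInstance, fun i l => χ (Fin.ofNat (m + 1) i) (xv k l),
      fun i l => χ (Fin.ofNat (m + 1) i) (yv k l), fun i h => ⟨fun e => ?_, fun e => ?_,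
        fun g hg => ?_⟩, fun i => ⟨χ (Fin.ofNat (m + 1) i)
          (yv k (s (Fin.ofNat (m + 1) i + 1))), funext fun l => ?_⟩⟩
    · exact one_ne_zero ((one _ _ (h2 _)).symm.trans (congrFun e (s _)))
    · exact one_ne_zero ((one _ _ (h3 _)).symm.trans (congrFun e (t _)))
    · have e : Fin.ofNat (m + 1) i = ⟨i, h.trans_eq hm'⟩ :=
        Fin.ext (Nat.mod_eq_of_lt (h.trans_eq hm'))
      rw [← z (Fin.ofNat (m + 1) i) g (by rw [e]; exact hg)]
      refine DFunLike.congr_fun (algHom_ext fun u => ?_) g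
      cases u <;> simp [xv, yv]
    · have e : Fin.ofNat (m + 1) (i + 1) = Fin.ofNat (m + 1) i + 1 :=
        Fin.ext (by simp [Fin.val_add])
      simp only [Pi.smul_apply, smul_eq_mul, e]
      exact step _ l

theorem ex_swap (β : Basis B k A) (M : Model k A) {L L' : List (Submodule k A)}
    (hb : ∀ Y ∈ L ++ L', Bim M.σ Y) (h : Ex (bH β) (SW β M.σ (L ++ L'))) :
    Ex (bH β) (SW β M.σ (L' ++ L)) := by
  have := ex_rotate rot β M.split hb L.length h
  rwa [List.rotate_append_length_eq] at this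

theorem bim_aff {M : Model k A} {I : Ideal (R0 k)} {Y : Submodule k A} (h : IsAff M I Y) :
    Bim M.σ Y := by
  obtain ⟨J, _, _, _, _, _, rfl⟩ := h
  exact (mod k A M).2.1 _ _

/-- A head slot `Y₀` can be replaced by the affine slots over `I`. -/
def Gen (β : Basis B k A) (M : Model k A) (I : Ideal (R0 k)) (Y₀ : Submodule k A) : Prop :=
  ∀ Ys : List (Submodule k A), (∀ Y ∈ Ys, Bim M.σ Y) →
    (∀ Y, IsAff M I Y → Ex (bH β) (SW β M.σ (Y :: Ys))) → Ex (bH β) (SW β M.σ (Y₀ :: Ys))

theorem exists_gen (I : Ideal (R0 k)) (hI : Bihom I) : ∃ a₀ : ℕ, ∀ a, a₀ ≤ a →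
    ∀ (A B : Type) [Ring A] [Algebra k A] (β : Basis B k A) (M : Model k A),
      Gen β M I (M.YR I (some (a, a))) := by
  obtain ⟨a₀, ha⟩ := dev k I hI
  exact ⟨a₀, fun a h A B _ _ β M Ys hYs hh => ha a a h h _ _ _ _ (fam mod k A _ β M Ys hYs)
    fun J s t h1 h2 h3 => hh _ ⟨J, s, t, h1, h2, h3, rfl⟩⟩

/-- Devissage in all slots of a prefix. -/
theorem mixed {β : Basis B k A} {M : Model k A} {I : Ideal (R0 k)} {Y₀ : Submodule k A}
    (h0 : Bim M.σ Y₀) (hg : Gen β M I Y₀) (L : List (Submodule k A))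
    (hL : ∀ Y ∈ L, Y = Y₀ ∨ IsAff M I Y) (Cs : List (Submodule k A))
    (hC : ∀ Y ∈ Cs, Bim M.σ Y)
    (h : ∀ Zs : List (Submodule k A), Zs.length = L.length → (∀ Z ∈ Zs, IsAff M I Z) →
      Ex (bH β) (SW β M.σ (Zs ++ Cs))) : Ex (bH β) (SW β M.σ (L ++ Cs)) := by
  induction L generalizing Cs with
  | nil => exact h [] rfl (by simp)
  | cons Y L ih =>
    have hL' : ∀ Z ∈ L, Z = Y₀ ∨ IsAff M I Z := fun Z hZ => hL Z (List.mem_cons_of_mem _ hZ)
    have bL : ∀ Z ∈ L, Bim M.σ Z := fun Z hZ => (hL' Z hZ).elim (fun e => e ▸ h0) bim_aff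
    have key : ∀ Y', IsAff M I Y' → Ex (bH β) (SW β M.σ (Y' :: (L ++ Cs))) := fun Y' hY' => by
      have bC : ∀ Z ∈ Cs ++ [Y'], Bim M.σ Z := fun Z hZ => by
        rcases List.mem_append.1 hZ with hZ | hZ
        · exact hC Z hZ
        · rw [List.mem_singleton.1 hZ]; exact bim_aff hY'
      have e1 := ih hL' (Cs ++ [Y']) bC fun Zs hl hZs => by
        have e2 := h (Y' :: Zs) (by simp [hl]) (fun Z hZ => by
          rcases List.mem_cons.1 hZ with rfl | hZ
          · exact hY'
          · exact hZs Z hZ)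
        have e3 := ex_swap β M (L := [Y']) (L' := Zs ++ Cs) (fun Z hZ => by
          simp only [List.mem_append, List.mem_singleton] at hZ
          rcases hZ with rfl | hZ | hZ
          · exact bim_aff hY'
          · exact bim_aff (hZs Z hZ)
          · exact hC Z hZ) e2
        rwa [List.append_assoc] at e3
      rw [← List.append_assoc] at e1
      exact ex_swap β M (L := L ++ Cs) (L' := [Y']) (fun Z hZ => by
        simp only [List.mem_append, List.mem_singleton] at hZ
        rcases hZ with (hZ | hZ) | rfl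
        · exact bL Z hZ
        · exact hC Z hZ
        · exact bim_aff hY') e1
    rcases hL Y List.mem_cons_self with rfl | hY
    · refine hg _ (fun Z hZ => ?_) key
      rcases List.mem_append.1 hZ with hZ | hZ
      · exact bL Z hZ
      · exact hC Z hZ
    · exact key Y hY

/-- All tuples of slots `Y₀` and affine slots over `I` are exact. -/
theorem ex_mixed {β : Basis B k A} {M : Model k A} {I : Ideal (R0 k)} {Y₀ : Submodule k A}
    (hI : NoCycle I) (h0 : Bim M.σ Y₀) (hg : Gen β M I Y₀) (L : List (Submodule k A))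
    (hL : ∀ Y ∈ L, Y = Y₀ ∨ IsAff M I Y) : Ex (bH β) (SW β M.σ L) := by
  have := mixed h0 hg L hL [] (by simp) fun Zs _ hZs => by
    rw [List.append_nil]
    exact scyc k A B β M I hI Zs hZs
  rwa [List.append_nil] at this

theorem aff_list {M : Model k A} {I : Ideal (R0 k)} (Zs : List (Submodule k A))
    (h : ∀ Z ∈ Zs, IsAff M I Z) : ∃ Js : List (Ideal (R0 k)),
      Zs = Js.map (fun J => M.YR J none) ∧ ∀ J ∈ Js, I ≤ J ∧ AffI J := by
  induction Zs with
  | nil => exact ⟨[], rfl, by simp⟩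
  | cons Z Zs ih =>
    obtain ⟨Js, e, hJ⟩ := ih fun Y hY => h Y (List.mem_cons_of_mem _ hY)
    obtain ⟨J, s, t, h1, h2, h3, rfl⟩ := h Z List.mem_cons_self
    refine ⟨J :: Js, by rw [List.map_cons, e], fun J' hJ' => ?_⟩
    rcases List.mem_cons.1 hJ' with rfl | hJ'
    · exact ⟨h1, s, t, h2, h3⟩
    · exact hJ J' hJ'

theorem noCycle_nat {I : Ideal (R0 k)} (hI : NoCycle I) {K : Type} [Field K] [Algebra k K]
    (m : ℕ) (x y : ℕ → Fin 3 → K) (hx : ∀ i ≤ m, x i ≠ 0) (hy : ∀ i ≤ m, y i ≠ 0)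
    (hv : ∀ i ≤ m, ∀ g ∈ I, aeval (Sum.elim (x i) (y i)) g = 0)
    (hs : ∀ i < m, ∃ c : K, y i = c • x (i + 1)) (hc : ∃ c : K, y m = c • x 0) : False := by
  refine hI K m (fun i => x i) (fun i => y i) (fun i => hx i (Nat.lt_succ_iff.1 i.2))
    (fun i => hy i (Nat.lt_succ_iff.1 i.2)) (fun i => hv i (Nat.lt_succ_iff.1 i.2)) fun i => ?_
  by_cases h : i = Fin.last m
  · subst h
    simpa using hc
  · have hi : i.val < m := Fin.val_lt_last h
    have e : (i + 1).val = i.val + 1 := by
      rw [Fin.val_add_one_of_lt (Fin.lt_last_iff_ne_last.2 h)]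
    simp only [e]
    exact hs i hi

theorem aeval_map_pt {K : Type} [Field K] [Algebra k K] (u v : Fin 3 → k) (g : R0 k) :
    aeval (Sum.elim (fun l => algebraMap k K (u l)) (fun l => algebraMap k K (v l))) g =
      algebraMap k K (aeval (Sum.elim u v) g) := by
  have : (aeval (Sum.elim (fun l => algebraMap k K (u l)) (fun l => algebraMap k K (v l))) :
      R0 k →ₐ[k] K) = (Algebra.ofId k K).comp (aeval (Sum.elim u v)) :=
    algHom_ext fun w => by cases w <;> simp [Algebra.ofId_apply]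
  rw [this]
  rfl

/-- A point of an ideal that contains the functions vanishing at the first `R` steps of the chain
starts at one of the first `R` points. -/
theorem early_pt {K : Type} [Field K] [Algebra k K] (p : ℕ → Fin 3 → k) (R : ℕ)
    {J : Ideal (R0 k)}
    (hE : ∀ g, (∀ r < R, aeval (Sum.elim (p r) (p (r + 1))) g = 0) → g ∈ J)
    (x y : Fin 3 → K) (hv : ∀ g ∈ J, aeval (Sum.elim x y) g = 0) :
    ∃ r < R, x = fun l => algebraMap k K (p r l) := by
  by_contra hn
  push Not at hn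
  have h1 : ∀ r, ∃ l, r < R → x l ≠ algebraMap k K (p r l) := fun r => by
    by_cases hr : r < R
    · obtain ⟨l, hl⟩ := Function.ne_iff.1 (hn r hr)
      exact ⟨l, fun _ => hl⟩
    · exact ⟨0, fun h => absurd h hr⟩
  choose l hl using h1
  have := hv (∏ r ∈ Finset.range R, (xv k (l r) - C (p r (l r)))) (hE _ fun r hr => by
    rw [map_prod]
    exact Finset.prod_eq_zero (Finset.mem_range.2 hr) (by simp [xv]))
  rw [map_prod, Finset.prod_eq_zero_iff] at this
  obtain ⟨r, hr, e⟩ := this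
  refine hl r (Finset.mem_range.1 hr) ?_
  simpa [xv, sub_eq_zero] using e

/-- Words whose head slot ends at `p R` and that contain a slot supported on the first `R` steps
of the chain are exact. -/
theorem ex_head {β : Basis B k A} {M : Model k A} {I : Ideal (R0 k)} {Y₀ : Submodule k A}
    (hI : NoCycle I) (h0 : Bim M.σ Y₀) (hg : Gen β M I Y₀) (p : ℕ → Fin 3 → k)
    (hp : ∀ n, p n ≠ 0) (hpI : ∀ n, ∀ g ∈ I, aeval (Sum.elim (p n) (p (n + 1))) g = 0) (R : ℕ)
    {JN J : Ideal (R0 k)} (hN : AffI JN) (hNy : ∀ l, yv k l - C (p R l) ∈ JN) (hJ : AffI J)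
    (hE : ∀ g, (∀ r < R, aeval (Sum.elim (p r) (p (r + 1))) g = 0) → g ∈ J)
    (L₁ L₂ : List (Submodule k A)) (h₁ : ∀ Y ∈ L₁, Y = Y₀ ∨ IsAff M I Y)
    (h₂ : ∀ Y ∈ L₂, Y = Y₀ ∨ IsAff M I Y) :
    Ex (bH β) (SW β M.σ (M.YR JN none :: (L₁ ++ M.YR J none :: L₂))) := by
  have bR : ∀ J' d, Bim M.σ (M.YR J' d) := (mod k A M).2.1
  have bL : ∀ L : List (Submodule k A), (∀ Y ∈ L, Y = Y₀ ∨ IsAff M I Y) → ∀ Z ∈ L, Bim M.σ Z :=
    fun L hL Z hZ => (hL Z hZ).elim (fun e => e ▸ h0) bim_aff
  have core : ∀ Z₁ Z₂ : List (Submodule k A), (∀ Z ∈ Z₁, IsAff M I Z) → (∀ Z ∈ Z₂, IsAff M I Z) →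
      Ex (bH β) (SW β M.σ (M.YR JN none :: (Z₁ ++ M.YR J none :: Z₂))) := by
    intro Z₁ Z₂ a₁ a₂
    obtain ⟨J₁, rfl, b₁⟩ := aff_list Z₁ a₁
    obtain ⟨J₂, rfl, b₂⟩ := aff_list Z₂ a₂
    by_contra hn
    obtain ⟨K, _, _, x, y, hv, hs⟩ := cycG β M (JN :: (J₁ ++ J :: J₂)) (fun J' hJ' => by
      simp only [List.mem_cons, List.mem_append] at hJ'
      rcases hJ' with rfl | hJ' | rfl | hJ'
      · exact hN
      · exact (b₁ J' hJ').2
      · exact hJ
      · exact (b₂ J' hJ').2) (by simpa using hn)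
    let q : ℕ → Fin 3 → K := fun n l => algebraMap k K (p n l)
    have hq : ∀ n, q n ≠ 0 := fun n e => hp n (funext fun l =>
      (algebraMap k K).injective ((congrFun e l).trans (map_zero _).symm))
    have hqI : ∀ n, ∀ g ∈ I, aeval (Sum.elim (q n) (q (n + 1))) g = 0 := fun n g hg => by
      rw [aeval_map_pt, hpI n g hg, map_zero]
    have y0 : y 0 = q R := funext fun l => by
      have := (hv 0 (by simp)).2.2 _ (hNy l)
      simpa [yv, sub_eq_zero] using this
    obtain ⟨r, hr, xr⟩ := early_pt p R hE (x (J₁.length + 1)) (y (J₁.length + 1)) fun g hg =>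
      (hv (J₁.length + 1) (by simp)).2.2 g (by simpa using hg)
    have hv' : ∀ i < J₁.length, x (i + 1) ≠ 0 ∧ y (i + 1) ≠ 0 ∧
        ∀ g ∈ I, aeval (Sum.elim (x (i + 1)) (y (i + 1))) g = 0 := fun i hi => by
      obtain ⟨u1, u2, u3⟩ := hv (i + 1) (by simp; omega)
      refine ⟨u1, u2, fun g hg => u3 g ?_⟩
      rw [List.getElem_cons_succ, List.getElem_append_left hi]
      exact (b₁ _ (List.getElem_mem _)).1 hg
    set n := J₁.length with hn'
    have xr' : x (n + 1) = q r := xr
    refine noCycle_nat hI (n + (R - r) - 1)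
      (fun i => if i < n then x (i + 1) else q (r + (i - n)))
      (fun i => if i < n then y (i + 1) else q (r + (i - n) + 1)) (fun i _ => ?_) (fun i _ => ?_)
      (fun i _ g hg => ?_) (fun i _ => ?_) ?_
    · split_ifs with h
      · exact (hv' i h).1
      · exact hq _
    · split_ifs with h
      · exact (hv' i h).2.1
      · exact hq _
    · split_ifs with h
      · exact (hv' i h).2.2 g hg
      · exact hqI _ g hg
    · by_cases h : i < n
      · rw [if_pos h]
        obtain ⟨c, hc⟩ := hs (i + 1)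
        refine ⟨c, hc.trans ?_⟩
        split_ifs with h'
        · rfl
        · rw [show i + 1 = n by omega, xr', Nat.sub_self, add_zero]
      · rw [if_neg h, if_neg (by omega)]
        exact ⟨1, by rw [one_smul, show r + (i + 1 - n) = r + (i - n) + 1 by omega]⟩
    · rw [if_neg (by omega), show r + (n + (R - r) - 1 - n) + 1 = R by omega, ← y0]
      obtain ⟨c, hc⟩ := hs 0
      refine ⟨c, hc.trans ?_⟩
      split_ifs with h'
      · rfl
      · rw [show 0 + 1 = n + 1 by omega, xr', Nat.zero_sub, add_zero]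
  have s1 := mixed h0 hg L₁ h₁ (M.YR J none :: L₂ ++ [M.YR JN none]) (fun Z hZ => by
    simp only [List.mem_cons, List.mem_append, List.not_mem_nil, or_false] at hZ
    rcases hZ with (rfl | hZ) | rfl
    · exact bR _ _
    · exact bL _ h₂ Z hZ
    · exact bR _ _) fun Z₁ _ a₁ => by
      have s2 := mixed h0 hg L₂ h₂ (M.YR JN none :: Z₁ ++ [M.YR J none]) (fun Z hZ => by
        simp only [List.mem_cons, List.mem_append, List.not_mem_nil, or_false] at hZ
        rcases hZ with (rfl | hZ) | rfl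
        · exact bR _ _
        · exact bim_aff (a₁ Z hZ)
        · exact bR _ _) fun Z₂ _ a₂ => by
          have s3 := ex_swap β M (L := M.YR JN none :: Z₁ ++ [M.YR J none]) (L' := Z₂)
            (fun Z hZ => by
              simp only [List.mem_cons, List.mem_append, List.not_mem_nil, or_false] at hZ
              rcases hZ with ((rfl | hZ) | rfl) | hZ
              · exact bR _ _
              · exact bim_aff (a₁ Z hZ)
              · exact bR _ _
              · exact bim_aff (a₂ Z hZ)) (by simpa using core Z₁ Z₂ a₁ a₂)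
          exact s3
      have s4 := ex_swap β M (L := L₂ ++ [M.YR JN none]) (L' := Z₁ ++ [M.YR J none])
        (fun Z hZ => by
          simp only [List.mem_cons, List.mem_append, List.not_mem_nil, or_false] at hZ
          rcases hZ with (hZ | rfl) | hZ | rfl
          · exact bL _ h₂ Z hZ
          · exact bR _ _
          · exact bim_aff (a₁ Z hZ)
          · exact bR _ _) (by simpa using s2)
      simpa using s4
  have s5 := ex_swap β M (L := L₁ ++ M.YR J none :: L₂) (L' := [M.YR JN none])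
    (fun Z hZ => by
      simp only [List.mem_cons, List.mem_append, List.not_mem_nil, or_false] at hZ
      rcases hZ with (hZ | rfl | hZ) | rfl
      · exact bL _ h₁ Z hZ
      · exact bR _ _
      · exact bL _ h₂ Z hZ
      · exact bR _ _) (by simpa using s1)
  exact s5

end Pool.Agent.MP_92f1cb_al.H14S
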